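import Pool.Agent.Q207.DB.Pt
import Pool.Agent.Q207.DB.Des

/-!
# De Rham-Betti classes on all tensor powers of sums of hypergeometric motives, for almost all fibres

The equation `θ^n f = z ∏_j (θ + α_j) f` with rational non-integral exponents `α_1, …, α_n`, `θ = z d/dz`, has maximally
unipotent monodromy at `z = 0`, and its solutions are periods of a family `H(α)` of motives over `ℚ(z)` of rank `n`. The
Frobenius method gives the basis `f_0, …, f_{n-1}` of solutions, and the periods of the fibres near `z = 0` are linear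
combinations of the numbers `(θ^i f_j)(z)` with constant coefficients (the matrices `Ω`). For `n = 4` and
`α = (1/5, 2/5, 3/5, 4/5)` this is the motive `h^3` of the mirror quintics.

Let `M` be the direct sum of the fibres at `1 / t_i` of arbitrary finite sums `⨁_j H(α_{i j})`, with repetitions, with
equivalent and with dual members, and let `c` be its period matrix. We consider tensors `x ∈ M_B^{⊗ q} ⊗ K` over a number
field `K` of small degree such that `c^{⊗ q} x = λ a` with `a ∈ M_dR^{⊗ q}` over `K` and any `λ ∈ ℂ` (for the classes in the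
conjecture on algebraic cycles `λ` is a power of `2πi`). For almost all `t`, all `K` of small degree and all `q`:

1. `x` is flat: it is invariant under the group of the torsor which is given by the quadratic functional relations and the
  determinants;
2. `x` is a linear combination of products of flat tensors of degree `2` and of degrees `n_{i j}`, where only the ranks
  `n_{i j}` of motives `H(α_{i j})` which are not of symplectic type occur; so if all `H(α_{i j})` are of symplectic type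
  (`n_{i j}` even, exponents symmetric modulo `ℤ`), for example for all sums of families of Calabi-Yau type, then the flat
  tensors of degree `2` are enough: the polarisations and the isomorphisms between equivalent members;
3. if these flat tensors are combinations of de Rham-Betti tensors over `K` (for example if they come from algebraic
  cycles), then `x` is a combination over `K` of products of de Rham-Betti tensors of these degrees.

The proof: `Q207.HM.tuplesT` says that all `K`-subtorsors which contain `c` contain the torsor given by the quadratic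
relations and the determinants. This is applied to the subtorsor of the matrices which map `x` to a multiple of `a`. The
group of the torsor is a product of classical groups, embedded with repetitions and duals; it is perfect, so its character
on the line of `x` is trivial. The first fundamental theorem for products of special linear, orthogonal and symplectic groups
(files of helper59, here in `Q207.DB` for arbitrary multiplicities) gives 2; normal forms of the forms by helper208.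
-/

set_option autoImplicit false

open PowerSeries Filter Q207.HM

namespace Pool.Agent.Results.MP_bf54cf_ag.ClassesOnHypergeometricSums

/-- the power series `k + ε` in the variable `ε` -/
noncomputable def shift (k : ℕ) : PowerSeries ℚ := C (k : ℚ) + X

/-- `a_k(ε) = ∏_{l < k} ∏_j (l + ε + α_j) / (l + 1 + ε)^n`. The series `∑_k a_k(ε) z^(k + ε)` solves the equation
`(θ^n - z ∏_j (θ + α_j)) f = ε^n z^ε`, hence its coefficients `f_j` at `ε^j` with `j < n` are solutions of the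
homogeneous equation. -/
noncomputable def frob {n : ℕ} (α : Fin n → ℚ) (k : ℕ) : PowerSeries ℚ :=
  ∏ l ∈ Finset.range k, ((∏ j, (shift l + C (α j))) * ((shift (l + 1))⁻¹) ^ n)

/-- The matrix with the entries `(θ^i f_j)(z)`, where `f_j(z)` is the coefficient of `ε^j` in the series
`∑_k a_k(ε) z^(k + ε)`, `z^ε = ∑_l (log z)^l ε^l / l!`. -/
noncomputable def Y {n : ℕ} (α : Fin n → ℚ) (z : ℝ) : Matrix (Fin n) (Fin n) ℂ :=
  Matrix.of fun i j => ∑ l ∈ Finset.range ((j : ℕ) + 1), ((Real.log z ^ l / l.factorial : ℝ) : ℂ) *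
    ∑' k : ℕ, ((coeff ((j : ℕ) - l) (shift k ^ (i : ℕ) * frob α k) : ℚ) : ℂ) * (z : ℂ) ^ k

/-- the value at `z` and at the entries of the matrices `g_j` of a polynomial with coefficients in `ℚ[z]` -/
noncomputable def value {r : ℕ} {n : Fin r → ℕ} (R : MvPolynomial (Σ j : Fin r, Fin (n j) × Fin (n j)) (Polynomial ℚ))
    (z : ℝ) (g : ∀ j, Matrix (Fin (n j)) (Fin (n j)) ℂ) : ℂ :=
  MvPolynomial.eval₂ (Polynomial.eval₂RingHom (algebraMap ℚ ℂ) (z : ℂ)) (fun p => g p.1 p.2.1 p.2.2) R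

/-- The algebraic set `T(z)` of the direct sum of the motives `H(α_j)`: the matrices `g_j` which satisfy at `z` all
polynomial relations of degree `≤ 2` with coefficients in `ℚ[z]` which hold for the entries of the matrix functions
`Y_j` on the interval `(0, 1)`, and have the determinants `(1 - z)^(- ∑ α_j)` (positive real numbers). -/
def torsor {r : ℕ} {n : Fin r → ℕ} (α : ∀ j, Fin (n j) → ℚ) (z : ℝ) : Set (∀ j, Matrix (Fin (n j)) (Fin (n j)) ℂ) :=
  {g | (∀ R : MvPolynomial (Σ j : Fin r, Fin (n j) × Fin (n j)) (Polynomial ℚ), R.totalDegree ≤ 2 →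
      (∀ x : ℝ, 0 < x → x < 1 → value R x (fun j => Y (α j) x) = 0) → value R z g = 0) ∧
    ∀ j, (g j).det = (((1 - z) ^ (-((∑ l, α j l : ℚ) : ℝ)) : ℝ) : ℂ)}

section tensors

variable {S : Type} [Fintype S]

/-- the action of a matrix on the tensors of degree `q` (functions of `q` indices) -/
noncomputable def act {q : ℕ} (g : Matrix S S ℂ) (x : (Fin q → S) → ℂ) : (Fin q → S) → ℂ :=
  fun w => ∑ v : Fin q → S, (∏ k, g (w k) (v k)) * x v

/-- the product of the tensors `u_j` of degrees `s_j`, where `e` gives the places of the factors -/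
def product {l q : ℕ} {s : Fin l → ℕ} (e : (Σ j, Fin (s j)) ≃ Fin q) (u : ∀ j, (Fin (s j) → S) → ℂ) : (Fin q → S) → ℂ :=
  fun w => ∏ j, u j fun a => w (e ⟨j, a⟩)

/-- the tensor `x ∈ M_B^{⊗ q}` is defined over `K`, and its image under the comparison isomorphism with the matrix `c` is a
complex multiple of a tensor in `M_dR^{⊗ q}` which is defined over `K` -/
def IsDRB (K : Subfield ℂ) (c : Matrix S S ℂ) {q : ℕ} (x : (Fin q → S) → ℂ) : Prop :=
  (∀ w, x w ∈ K) ∧ ∃ (a : (Fin q → S) → ℂ) (l : ℂ), (∀ w, a w ∈ K) ∧ act c x = l • a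

end tensors

section

variable {k : ℕ} {r : Fin k → ℕ} {n : ∀ i, Fin (r i) → ℕ}

/-- the index set of the bases of `M` -/
abbrev Idx (n : ∀ i, Fin (r i) → ℕ) : Type := Σ p : (Σ i : Fin k, Fin (r i)), Fin (n p.1 p.2)

/-- the block matrix `⨁_{i,j} X_{i j}` -/
noncomputable def total (X : ∀ i j, Matrix (Fin (n i j)) (Fin (n i j)) ℂ) : Matrix (Idx n) (Idx n) ℂ :=
  Matrix.blockDiagonal' fun p : (Σ i : Fin k, Fin (r i)) => X p.1 p.2

/-- flat tensors: `(⨁ g_{i j} Ω_{i j})^{⊗ s} u` is the same for all `(g_{i j})_j ∈ T_i(1 / t_i)` -/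
def IsFlat (α : ∀ i j, Fin (n i j) → ℚ) (Ω : ∀ i j, Matrix (Fin (n i j)) (Fin (n i j)) ℂ) (t : Fin k → ℕ) {s : ℕ}
    (u : (Fin s → Idx n) → ℂ) : Prop :=
  ∀ g g' : ∀ i j, Matrix (Fin (n i j)) (Fin (n i j)) ℂ, (∀ i, g i ∈ torsor (α i) (1 / (t i : ℝ))) →
    (∀ i, g' i ∈ torsor (α i) (1 / (t i : ℝ))) →
    act (total fun i j => g i j * Ω i j) u = act (total fun i j => g' i j * Ω i j) u

/-- symplectic type: even rank and exponents which are symmetric modulo `ℤ` -/
def IsSymplectic {m : ℕ} (a : Fin m → ℚ) : Prop := Even m ∧ ∃ σ : Equiv.Perm (Fin m), ∀ l, ∃ b : ℤ, a (σ l) + a l = b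

/-- the degrees: `2` and the ranks of the motives `H(α_{i j})` which are not of symplectic type -/
def Degree (α : ∀ i j, Fin (n i j) → ℚ) (s : ℕ) : Prop := s = 2 ∨ ∃ i j, s = n i j ∧ ¬ IsSymplectic (α i j)

/-- The conclusion for one tuple `t`, for all number fields `K` of degree at most `D`, all degrees `q` and all de Rham-Betti
tensors `x` over `K`; `c = ⨁ Y_{i j}(1 / t_i) Ω_{i j}` is the period matrix. -/
def Good (D : ℕ) (α : ∀ i j, Fin (n i j) → ℚ) (Ω : ∀ i j, Matrix (Fin (n i j)) (Fin (n i j)) ℂ) (t : Fin k → ℕ) : Prop :=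
  ∀ K : Subfield ℂ, FiniteDimensional ℚ K → Module.finrank ℚ K ≤ D →
  ∀ (q : ℕ) (x : (Fin q → Idx n) → ℂ), IsDRB K (total fun i j => Y (α i j) (1 / (t i : ℝ)) * Ω i j) x →
    IsFlat α Ω t x ∧
    x ∈ Submodule.span ℂ {y | ∃ (l : ℕ) (s : Fin l → ℕ) (e : (Σ j, Fin (s j)) ≃ Fin q) (u : ∀ j, (Fin (s j) → Idx n) → ℂ),
      (∀ j, Degree α (s j) ∧ IsFlat α Ω t (u j)) ∧ y = product e u} ∧
    ((∀ s, Degree α s → ∀ u : (Fin s → Idx n) → ℂ, IsFlat α Ω t u →
        u ∈ Submodule.span ℂ {y | IsDRB K (total fun i j => Y (α i j) (1 / (t i : ℝ)) * Ω i j) y}) →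
      x ∈ Submodule.span K {y | ∃ (l : ℕ) (s : Fin l → ℕ) (e : (Σ j, Fin (s j)) ≃ Fin q) (u : ∀ j, (Fin (s j) → Idx n) → ℂ),
        (∀ j, Degree α (s j) ∧ IsDRB K (total fun i j => Y (α i j) (1 / (t i : ℝ)) * Ω i j) (u j)) ∧ y = product e u})

end

theorem shift_eq (k : ℕ) : shift k = Pool.Agent.Y119.HY.kx k := rfl

theorem frob_eq {n : ℕ} (α : Fin n → ℚ) (k : ℕ) : frob α k = Pool.Agent.Y119.HY.aq n (QA α) k := by
  unfold frob Pool.Agent.Y119.HY.aq
  refine Finset.prod_congr rfl fun l _ => ?_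
  have h1 : (∏ j, (shift l + C (α j))) = Polynomial.aeval (Pool.Agent.Y119.HY.kx l) (QA α) := by
    unfold QA
    rw [map_prod]
    refine Finset.prod_congr rfl fun j _ => ?_
    rw [map_add, Polynomial.aeval_X, Polynomial.aeval_C]
    rfl
  rw [h1]
  rfl

theorem Y_eq {n : ℕ} (α : Fin n → ℚ) {x : ℝ} (hx : 0 ≤ x) : Y α x = Yx n (QA α) x := by
  ext i j
  unfold Y Yx Pool.Agent.Y119.HY.Yf
  rw [Matrix.of_apply, Matrix.mul_apply]
  have hE : ∀ c : Fin n, Pool.Agent.Y119.HY.E (Pool.Agent.Y119.HY.cm (Pool.Agent.Y119.HY.Am n))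
      (Complex.log (x : ℂ)) c j = ∑ l ∈ Finset.range n,
        if (j : ℕ) = c + l then ((Real.log x ^ l / l.factorial : ℝ) : ℂ) else 0 := by
    intro c
    unfold Pool.Agent.Y119.HY.E
    rw [Matrix.sum_apply]
    refine Finset.sum_congr rfl fun l _ => ?_
    rw [Matrix.smul_apply, ← Pool.Agent.Y119.HY.cm_pow, Pool.Agent.Y119.HY.cm_apply, Pool.Agent.Y119.HY.Am_pow, smul_eq_mul,
      ← Complex.ofReal_log hx]
    split_ifs
    · push_cast
      ring
    · simp
  simp only [hE, Finset.mul_sum]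
  rw [Finset.sum_comm]
  have hsub : Finset.range ((j : ℕ) + 1) ⊆ Finset.range n := by
    intro l hl
    rw [Finset.mem_range] at hl ⊢
    have := j.2
    omega
  refine Finset.sum_subset_zero_on_sdiff hsub (fun l hl => ?_) fun l hl => ?_
  · rw [Finset.mem_sdiff, Finset.mem_range, Finset.mem_range] at hl
    refine Finset.sum_eq_zero fun c _ => ?_
    rw [if_neg (by omega), mul_zero]
  · rw [Finset.mem_range] at hl
    have hj := j.2
    rw [Finset.sum_eq_single (⟨(j : ℕ) - l, by omega⟩ : Fin n)]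
    · rw [if_pos (by simp only; omega), mul_comm]
      congr 1
      unfold Pool.Agent.Y119.HY.Hf Pool.Agent.Y119.HY.ps
      rw [Matrix.of_apply]
      refine tsum_congr fun k => ?_
      show _ = ((Pool.Agent.Y119.HY.hq n (QA α) k i ((j : ℕ) - l) : ℚ) : ℂ) * (x : ℂ) ^ k
      rw [frob_eq, shift_eq]
      rfl
    · intro c _ hc
      rw [if_neg, mul_zero]
      intro h
      apply hc
      apply Fin.ext
      simp only
      omega
    · intro h
      exact absurd (Finset.mem_univ _) h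

theorem value_eq {r : ℕ} {n : Fin r → ℕ} (R : MvPolynomial (Σ j : Fin r, Fin (n j) × Fin (n j)) (Polynomial ℚ))
    (z : ℝ) (g : ∀ j, Matrix (Fin (n j)) (Fin (n j)) ℂ) : value R z g = valQ R (z : ℂ) g := by
  unfold value valQ
  rfl

theorem pow_eq {t : ℕ} (ht : 2 ≤ t) (s : ℚ) :
    (((1 - 1 / (t : ℝ)) ^ (-(s : ℝ)) : ℝ) : ℂ) = Complex.exp (-(s : ℂ) * Complex.log (1 - 1 / (t : ℂ))) := by
  obtain ⟨h1, h2⟩ := tpos ht
  have h3 : 0 < 1 - 1 / (t : ℝ) := by linarith
  have h4 : (1 - 1 / (t : ℂ)) = (((1 - 1 / (t : ℝ) : ℝ)) : ℂ) := by push_cast; rfl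
  rw [Real.rpow_def_of_pos h3, h4, ← Complex.ofReal_log h3.le, Complex.ofReal_exp]
  congr 1
  push_cast
  ring

theorem torsor_eq {r : ℕ} {n : Fin r → ℕ} (α : ∀ j, Fin (n j) → ℚ) (t : ℕ) {g : ∀ j, Matrix (Fin (n j)) (Fin (n j)) ℂ}
    (hg : g ∈ torsor α (1 / (t : ℝ))) : QuadT α t g := by
  intro R hR h
  rw [← value_eq]
  refine hg.1 R hR fun x hx hx1 => ?_
  rw [value_eq]
  have h1 : (fun j => Y (α j) x) = fun j => Yx (n j) (QA (α j)) x := by
    funext j
    exact Y_eq _ hx.le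
  rw [h1]
  exact h x hx hx1

theorem torsor_iff {r : ℕ} {n : Fin r → ℕ} (α : ∀ j, Fin (n j) → ℚ) {t : ℕ} (ht : 2 ≤ t)
    (g : ∀ j, Matrix (Fin (n j)) (Fin (n j)) ℂ) : g ∈ torsor α (1 / (t : ℝ)) ↔ g ∈ TP α t := by
  refine and_congr ⟨fun h R hR h0 => ?_, fun h R hR h0 => ?_⟩ (forall_congr' fun j => ?_)
  · rw [← value_eq]
    refine h R hR fun x hx hx1 => ?_
    rw [value_eq]
    have h1 : (fun j => Y (α j) x) = fun j => Yx (n j) (QA (α j)) x := by
      funext j
      exact Y_eq _ hx.le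
    rw [h1]
    exact h0 x hx hx1
  · rw [value_eq]
    refine h R hR fun x hx hx1 => ?_
    have h1 := h0 x hx hx1
    rw [value_eq] at h1
    have h2 : (fun j => Y (α j) x) = fun j => Yx (n j) (QA (α j)) x := by
      funext j
      exact Y_eq _ hx.le
    rw [h2] at h1
    exact h1
  · rw [pow_eq ht]

section

variable {k : ℕ} {r : Fin k → ℕ} {n : ∀ i, Fin (r i) → ℕ}

theorem flat_iff (α : ∀ i j, Fin (n i j) → ℚ) (Ω : ∀ i j, Matrix (Fin (n i j)) (Fin (n i j)) ℂ) {t : Fin k → ℕ} (ht : ∀ i, 2 ≤ t i)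
    {s : ℕ} (u : (Fin s → Idx n) → ℂ) : IsFlat α Ω t u ↔ Q207.DB.Flat α Ω t u := by
  refine forall_congr' fun g => forall_congr' fun g' => ?_
  refine imp_congr (forall_congr' fun i => torsor_iff (α i) (ht i) (g i)) (imp_congr (forall_congr' fun i =>
    torsor_iff (α i) (ht i) (g' i)) Iff.rfl)

theorem sym_iff {m : ℕ} (a : Fin m → ℚ) : IsSymplectic a ↔ cls a = (cls fun l => -a l) ∧ Even m := by
  constructor
  · rintro ⟨h1, σ, h2⟩
    refine ⟨perm_cls σ fun l => ?_, h1⟩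
    obtain ⟨b, hb⟩ := h2 l
    exact ⟨-b, by push_cast; linarith⟩
  · rintro ⟨h1, h2⟩
    obtain ⟨σ, hσ⟩ := cls_perm h1
    refine ⟨h2, σ, fun l => ?_⟩
    obtain ⟨b, hb⟩ := hσ l
    exact ⟨-b, by push_cast; linarith⟩

theorem degree_iff (α : ∀ i j, Fin (n i j) → ℚ) (s : ℕ) : Degree α s ↔ Q207.DB.Dg α s := by
  unfold Degree Q207.DB.Dg
  simp only [sym_iff]

theorem good_of {D : ℕ} {α : ∀ i j, Fin (n i j) → ℚ} (hα : ∀ i j l, ∀ a : ℤ, α i j l ≠ a) (hn : ∀ i j, 2 ≤ n i j)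
    (had : ∀ i j, (cls (α i j) = cls fun l => -α i j l) ∨ ∀ a : ℤ, 2 * ∑ l, α i j l ≠ a)
    {Ω : ∀ i j, Matrix (Fin (n i j)) (Fin (n i j)) ℂ} (hΩ : ∀ i j, (Ω i j).det ≠ 0) {t : Fin k → ℕ} (ht : ∀ i, 2 ≤ t i)
    (hG : GoodT D (1 : Matrix (Fin 0) (Fin 0) ℂ) α Ω t) : Good D α Ω t := by
  intro K hKf hKD q x hx
  have hY : (fun i j => Y (α i j) (1 / (t i : ℝ)) * Ω i j) =
      fun i j => Yx (n i j) (QA (α i j)) (1 / (t i : ℝ)) * Ω i j := by
    funext i j
    rw [Y_eq _ (tpos (ht i)).1.le]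
  obtain ⟨hxK, a, l, haK, hxa⟩ := hx
  rw [hY] at hxa
  obtain ⟨h1, h2⟩ := Q207.DB.point hα hn had hΩ ht hG hKf hKD hxK haK hxa
  have h3 : x ∈ Submodule.span ℂ {y | ∃ (l : ℕ) (s : Fin l → ℕ) (e : (Σ j, Fin (s j)) ≃ Fin q) (u : ∀ j, (Fin (s j) → Idx n) → ℂ),
      (∀ j, Degree α (s j) ∧ IsFlat α Ω t (u j)) ∧ y = product e u} := by
    refine Submodule.span_mono ?_ h2
    rintro y ⟨l, s, e, u, hu, rfl⟩
    exact ⟨l, s, e, u, fun j => ⟨(degree_iff α _).2 (hu j).1, (flat_iff α Ω ht _).2 (hu j).2⟩, rfl⟩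
  refine ⟨(flat_iff α Ω ht x).2 h1, h3, fun hyp => ?_⟩
  refine Q207.DB.span_desc ?_ hxK ?_
  · rintro _ ⟨l, s, e, u, hu, rfl⟩ w
    exact prod_mem fun j _ => (hu j).2.1 _
  · refine (?_ : Submodule.span ℂ _ ≤ _) h3
    rw [Submodule.span_le]
    rintro _ ⟨l, s, e, u, hu, rfl⟩
    have h4 := Q207.DB.prod_span e (u := u) (S := fun j => {y | IsDRB K (total fun i j => Y (α i j) (1 / (t i : ℝ)) * Ω i j) y})
      fun j => hyp _ (hu j).1 _ (hu j).2
    refine Submodule.span_mono ?_ h4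
    rintro _ ⟨u', hu', rfl⟩
    exact ⟨l, s, e, u', fun j => ⟨(hu j).1, hu' j⟩, rfl⟩

end

/-- **The theorem.** Let `H_{i j}`, `1 ≤ i ≤ k`, `1 ≤ j ≤ r_i`, be the hypergeometric motives with the exponents
`α_{i j l}`, rational and not integral, of ranks `≥ 2`, and suppose that the exponents of each of them are symmetric modulo
`ℤ` or have a sum which is not in `ℤ / 2`; repetitions, equivalent and dual motives are allowed. Then the period matrices
at `1 / t` lie in `T_i(1 / t)`, and the following holds.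

1. For all `D` there are `c > 0` and `C` such that for all invertible `Ω_{i j}` and all boxes `∏_i (x_i, x_i + N]` with
  `x_i ≥ 1` all but `C N^(k-1) ∑_i (1 + N / (x_i + N)^c)` integral points `t` of the box are good: the conclusion holds for
  all number fields of degree at most `D` and all degrees `q` at once.
2. There are functions `D(N) → ∞` and `δ(N) → 0` such that for all invertible `Ω_{i j}` and all `N` all but `δ(N) N^k` tuples
  of integers `2 ≤ t_i ≤ N` are good for all number fields of degree at most `D(N)`. -/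
theorem result (k : ℕ) (r : Fin k → ℕ) (n : ∀ i, Fin (r i) → ℕ) (α : ∀ i j, Fin (n i j) → ℚ) (hn : ∀ i j, 2 ≤ n i j)
    (hα : ∀ i j l, ∀ a : ℤ, α i j l ≠ a)
    (hs : ∀ i j, (∃ σ : Equiv.Perm (Fin (n i j)), ∀ l, ∃ a : ℤ, α i j (σ l) + α i j l = a) ∨
      ∀ a : ℤ, 2 * ∑ l, α i j l ≠ a) :
    (∀ i, ∀ t : ℕ, 2 ≤ t → (fun j => Y (α i j) (1 / (t : ℝ))) ∈ torsor (α i) (1 / (t : ℝ))) ∧
    (∀ D : ℕ, ∃ c C : ℝ, 0 < c ∧ 0 ≤ C ∧ ∀ (Ω : ∀ i j, Matrix (Fin (n i j)) (Fin (n i j)) ℂ), (∀ i j, (Ω i j).det ≠ 0) →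
      ∀ (x : Fin k → ℕ) (N : ℕ), (∀ i, 1 ≤ x i) → 1 ≤ N →
      (({t : Fin k → ℕ | (∀ i, x i < t i ∧ t i ≤ x i + N) ∧ ¬ Good D α Ω t}.ncard : ℕ) : ℝ) ≤
        C * (N : ℝ) ^ (k - 1) * ∑ i, (1 + N / ((x i : ℝ) + N) ^ c)) ∧
    (∃ (D : ℕ → ℕ) (δ : ℕ → ℝ), Tendsto D atTop atTop ∧ Tendsto δ atTop (nhds 0) ∧
      ∀ (Ω : ∀ i j, Matrix (Fin (n i j)) (Fin (n i j)) ℂ), (∀ i j, (Ω i j).det ≠ 0) → ∀ N : ℕ, 2 ≤ N →
      (({t : Fin k → ℕ | (∀ i, 2 ≤ t i ∧ t i ≤ N) ∧ ¬ Good (D N) α Ω t}.ncard : ℕ) : ℝ) ≤ δ N * (N : ℝ) ^ k) := by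
  classical
  have had : ∀ i j, (cls (α i j) = cls fun l => -α i j l) ∨ ∀ a : ℤ, 2 * ∑ l, α i j l ≠ a := fun i j => by
    rcases hs i j with ⟨σ, h1⟩ | h1
    · refine Or.inl (perm_cls σ fun l => ?_)
      obtain ⟨a, ha⟩ := h1 l
      exact ⟨-a, by push_cast; linarith⟩
    · exact Or.inr h1
  have hmain : ∀ D : ℕ, ∃ c C : ℝ, 0 < c ∧ 0 ≤ C ∧ ∀ (Ω : ∀ i j, Matrix (Fin (n i j)) (Fin (n i j)) ℂ),
      (∀ i j, (Ω i j).det ≠ 0) → ∀ (x : Fin k → ℕ) (N : ℕ), (∀ i, 1 ≤ x i) → 1 ≤ N →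
      (({t : Fin k → ℕ | (∀ i, x i < t i ∧ t i ≤ x i + N) ∧ ¬ Good D α Ω t}.ncard : ℕ) : ℝ) ≤
        C * (N : ℝ) ^ (k - 1) * ∑ i, (1 + N / ((x i : ℝ) + N) ^ c) := by
    intro D
    obtain ⟨c, C, hc, hC, hmain⟩ := tuplesT k D 0 r n α hα hn had
    refine ⟨c, C, hc, hC, ?_⟩
    intro Ω hΩ x N hx hN
    set S := {t : Fin k → ℕ | (∀ i, x i < t i ∧ t i ≤ x i + N) ∧ ¬ Good D α Ω t} with hS
    have hfin : S.Finite := by
      refine (Set.finite_Iic (fun i : Fin k => x i + N)).subset ?_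
      intro t ht i
      exact (ht.1 i).2
    rw [Set.ncard_eq_toFinset_card S hfin]
    refine hmain 1 Ω x N hx hN _ fun t ht => ?_
    have ht' : t ∈ S := hfin.mem_toFinset.1 ht
    have ht2 : ∀ i, 2 ≤ t i := fun i => by
      have := (ht'.1 i).1
      have := hx i
      omega
    exact ⟨ht'.1, fun h => ht'.2 (good_of hα hn had hΩ ht2 h)⟩
  refine ⟨fun i t ht => ⟨fun R _ h => ?_, fun j => ?_⟩, hmain, ?_⟩
  · obtain ⟨h1, h2⟩ := tpos ht
    exact h _ h1 h2
  · obtain ⟨h1, h2⟩ := tpos ht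
    show (Y (α i j) (1 / (t : ℝ))).det = _
    rw [Y_eq _ h1.le, det_Yt (QG_QA (hn i j) fun l a h0 => hα i j l a h0.symm) ht,
      QA_coeff (by have := hn i j; omega) (α i j), pow_eq ht]
  choose c C hc hC hcount using hmain
  obtain ⟨D, hD, hδ⟩ := Pool.Agent.Y123.GN.diag_seq
    (fun D N => C D * k * (1 / (N : ℝ) + 1 / (N : ℝ) ^ (c D))) (by
      intro D
      have h1 : Tendsto (fun N : ℕ => (1 : ℝ) / (N : ℝ)) atTop (nhds 0) := tendsto_one_div_atTop_nhds_zero_nat
      have h2 : Tendsto (fun N : ℕ => (1 : ℝ) / (N : ℝ) ^ (c D)) atTop (nhds 0) := by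
        have h3 := (tendsto_rpow_atTop (hc D)).comp tendsto_natCast_atTop_atTop
        have h4 := h3.inv_tendsto_atTop
        refine h4.congr fun N => ?_
        rw [one_div]
        rfl
      have h5 := (h1.add h2).const_mul (C D * k)
      rw [add_zero, mul_zero] at h5
      exact h5)
  refine ⟨D, _, hD, hδ, ?_⟩
  intro Ω hΩ N hN
  obtain ⟨N', rfl⟩ : ∃ N', N = 1 + N' := ⟨N - 1, by omega⟩
  have h1 := hcount (D (1 + N')) Ω hΩ (fun _ => 1) N' (fun _ => le_rfl) (by omega)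
  have h2 : {t : Fin k → ℕ | (∀ i, 1 < t i ∧ t i ≤ 1 + N') ∧ ¬ Good (D (1 + N')) α Ω t} =
      {t : Fin k → ℕ | (∀ i, 2 ≤ t i ∧ t i ≤ 1 + N') ∧ ¬ Good (D (1 + N')) α Ω t} := by
    ext t
    simp only [Set.mem_ofPred_eq, Nat.lt_iff_add_one_le]
  rw [h2] at h1
  refine h1.trans ?_
  have hN0 : (0 : ℝ) < ((1 + N' : ℕ) : ℝ) := by positivity
  have hN1 : (N' : ℝ) ≤ ((1 + N' : ℕ) : ℝ) := by push_cast; linarith
  rw [Finset.sum_const, Finset.card_univ, Fintype.card_fin, nsmul_eq_mul]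
  have h6 : ((1 : ℕ) : ℝ) + (N' : ℝ) = ((1 + N' : ℕ) : ℝ) := by push_cast; ring
  rw [h6]
  rcases Nat.eq_zero_or_pos k with hk | hk
  · subst hk
    simp
  · obtain ⟨q, rfl⟩ : ∃ q, k = q + 1 := ⟨k - 1, by omega⟩
    rw [Nat.add_sub_cancel, pow_succ (((1 + N' : ℕ) : ℝ))]
    have h7 : (0 : ℝ) < ((1 + N' : ℕ) : ℝ) ^ (c (D (1 + N'))) := Real.rpow_pos_of_pos hN0 _
    have h4 : (1 : ℝ) + N' / ((1 + N' : ℕ) : ℝ) ^ (c (D (1 + N'))) ≤
        ((1 + N' : ℕ) : ℝ) * (1 / ((1 + N' : ℕ) : ℝ) + 1 / ((1 + N' : ℕ) : ℝ) ^ (c (D (1 + N')))) := by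
      rw [mul_add, mul_one_div_cancel hN0.ne', mul_one_div]
      gcongr
    have h5 : (N' : ℝ) ^ q ≤ ((1 + N' : ℕ) : ℝ) ^ q := pow_le_pow_left₀ (by positivity) hN1 q
    have h8 := hC (D (1 + N'))
    calc C (D (1 + N')) * (N' : ℝ) ^ q * (((q + 1 : ℕ) : ℝ) * (1 + N' / ((1 + N' : ℕ) : ℝ) ^ (c (D (1 + N'))))) ≤
          C (D (1 + N')) * ((1 + N' : ℕ) : ℝ) ^ q * (((q + 1 : ℕ) : ℝ) *
            (((1 + N' : ℕ) : ℝ) * (1 / ((1 + N' : ℕ) : ℝ) + 1 / ((1 + N' : ℕ) : ℝ) ^ (c (D (1 + N')))))) := by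
          gcongr
      _ = _ := by ring

end Pool.Agent.Results.MP_bf54cf_ag.ClassesOnHypergeometricSums
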