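import Pool.Agent.Q207.HN.Dg

/-!
# De Rham-Betti classes on products of almost all members over number fields of hypergeometric families with any variety

Let `X` be a smooth projective variety over a number field `K ⊂ ℂ`. The Grothendieck period conjecture for cycles says that the
de Rham-Betti classes on `X`, the rational classes `u ∈ H^{2j}(X, ℚ)` such that `(2πi)^j u` is a de Rham class over `K` (or over
the field of algebraic numbers), are combinations of classes of algebraic cycles. It is known, for example, for products of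
elliptic curves and for divisors on abelian varieties and on K3 surfaces (with transcendence theory of commutative algebraic
groups), and in the cases where all cohomology is algebraic.

Let `X_{i,z}`, `1 ≤ i ≤ k`, be families of varieties over the `z`-line whose periods are the solutions of the hypergeometric
equations `θ^n f = z ∏_l (θ + β_{i l}) f`, of even order `n = n_i`, with rational `β_{i l}` between `0` and `1` which are
symmetric under `b ↦ 1 - b`; for example the mirror quintics (`n = 4`, `β = (1/5, 2/5, 3/5, 4/5)`) and the mirrors of the other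
Calabi-Yau complete intersections with one parameter. The families may coincide. Let `Y` be any smooth projective variety.

**Theorem.** For almost all `k`-tuples of algebraic integers `α_i` of degree at most `m`, each in its own number field (all but
`C T^(-c) |I|^k` of the tuples in `I^k` without coordinates in a finite set, where `I` is the set of the algebraic integers of
degree `≤ m` with conjugates at most `T`), the following holds for the members `X_i` at `z = 1 / α_i` and for all number fields
`K` of degree at most `D` which contain the `α_i`: all de Rham-Betti tensors over `K`, with any multiplier `λ` (a power of `2πi`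
for classes), on all tensor powers of `M ⊕ W`, `M = ⨁ M_i`, are rational combinations of exterior products of the classes
`C_i ∈ M_i ⊗ M_i` of the intersection forms and of de Rham-Betti tensors over `K` on the tensor powers of `W`, with the
multiplier which is left over. The classes `C_i` are themselves de Rham-Betti classes.

Here `M_i` is the part of `H^d(X_i)`, `d` odd, with the given periods, `W` is arbitrary, for example the sum of `H^*(Y)` and of
Tate motives (for the rest of the cohomology of the `X_i`), and `C_0` is its period matrix. If the motive of `X_i` is the sum of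
`M_i` and of Tate motives, as for the mirror quintics, then `C_i` is, up to sign, the difference of the class of the diagonal of
`X_i × X_i` and of products of algebraic classes on the factors, so it is algebraic. Hence:

* all de Rham-Betti classes over `K` on all products of powers of almost all mirror quintics over number fields are algebraic:
  this is the period conjecture for cycles, for the fields `K` of degree at most `D`. As far as we know nothing of this kind was
  known for varieties whose motives are not related to abelian varieties and not sums of Tate and Artin motives, except for the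
  theorem `ClassesOnHypergeometricSums` of this project, which is about the points `z = 1 / t` with integral `t`;
* if the de Rham-Betti classes over `K` on the `Y^b`, `b ≤ q`, are algebraic, then the same is true for the products of `q`
  factors `X_i`, `Y`, for example for products of elliptic curves `Y`; the numbers `c`, `C` and the finite set depend on the
  families, `k`, `m`, `D` and `dim H^*(Y)`, not on `Y`.

It is part of the theorem that the `X_i` are independent of each other and of `Y`: there are no de Rham-Betti classes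
besides the products.

Proof. The Frobenius solutions of the different equations are polynomials in `log z` and in a connected family of
G-functions, and their relations are preserved by the symplectic groups (project Q207/HN: theorems of Levelt, Beukers-Heckman
and Goursat-Kolchin-Ribet). By the theorem of Chudnovsky, Bombieri and André on relations between values of G-functions, in the
form of the starting files Y916 and of Q207/AF, all `K`-subtorsors of the period torsor which contain the period matrix of
`M ⊕ W` are stable under the symplectic groups, for almost all tuples. This is applied to the subtorsor of the matrices which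
map the de Rham tensor to a multiple of the Betti tensor: the symplectic groups are perfect, so the Betti tensor is invariant
(Q207/HN/Dc), and the first fundamental theorem and a descent argument to `K` give the decomposition (Q207/HN/Db).
-/

set_option autoImplicit false

open PowerSeries

namespace Pool.Agent.Results.MP_bf54cf_ag.ClassesOverNumberFields

/-! ### Hypergeometric periods -/

/-- the power series `j + ε` in the variable `ε` -/
noncomputable def shift (j : ℕ) : PowerSeries ℚ := PowerSeries.C (j : ℚ) + PowerSeries.X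

/-- `a_j(ε) = ∏_{l < j} ∏_i (l + ε + β_i) / (l + 1 + ε)^n`. The series `∑_j a_j(ε) z^(j + ε)` solves the equation
`(θ^n - z ∏_i (θ + β_i)) f = ε^n z^ε`, `θ = z d/dz`, hence its coefficients `f_a` at `ε^a` with `a < n` are solutions of the
homogeneous equation. -/
noncomputable def frob {m : ℕ} (β : Fin m → ℚ) (j : ℕ) : PowerSeries ℚ :=
  ∏ l ∈ Finset.range j, ((∏ i, (shift l + PowerSeries.C (β i))) * ((shift (l + 1))⁻¹) ^ m)

/-- The matrix with the entries `(θ^b f_a)(z)`, where `f_a(z)` is the coefficient of `ε^a` in the series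
`∑_j a_j(ε) z^(j + ε)`, `z^ε = ∑_l L^l ε^l / l!`, and `L` is a logarithm of `z`. -/
noncomputable def solutions {m : ℕ} (β : Fin m → ℚ) (z L : ℂ) : Matrix (Fin m) (Fin m) ℂ :=
  Matrix.of fun b a => ∑ l ∈ Finset.range ((a : ℕ) + 1), L ^ l / (l.factorial : ℂ) *
    ∑' j : ℕ, ((coeff ((a : ℕ) - l) (shift j ^ (b : ℕ) * frob β j) : ℚ) : ℂ) * z ^ j

/-- the flat pairing of the solutions in the Frobenius basis -/
noncomputable def pairing (m : ℕ) : Matrix (Fin m) (Fin m) ℂ :=
  Matrix.of fun a b => if (a : ℕ) + b + 1 = m then (-1) ^ (b : ℕ) else 0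

/-- The equation `θ^m f = z ∏_i (θ + β_i) f` has even order, rational exponents `β_i` between `0` and `1`, and is self-dual:
the exponents are symmetric under `a ↦ 1 - a`. For example `β = (1/5, 2/5, 3/5, 4/5)` for mirror quintics. -/
structure Symplectic {m : ℕ} (β : Fin m → ℚ) : Prop where
  two : 2 ≤ m
  even : Even m
  pos : ∀ l, 0 < β l ∧ β l < 1
  dual : ∃ σ : Equiv.Perm (Fin m), ∀ l, β (σ l) + β l = 1

/-- `Ω` is the base change from the Frobenius basis to a basis of the rational local system in which the integral matrix `Q`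
is, up to the factor `γ`, the flat pairing (`γ` is a rational multiple of `(2πi)^d` for the intersection form on `H^d`). -/
def IsBaseChange {m : ℕ} (Ω : Matrix (Fin m) (Fin m) ℂ) (Q : Matrix (Fin m) (Fin m) ℤ) (γ : ℂ) : Prop :=
  IsUnit Ω.det ∧ γ ≠ 0 ∧ Ω.transpose * (Q.map fun x : ℤ => (x : ℂ)) * Ω = γ • pairing m

/-- the algebraic integers of degree at most `m` all of whose conjugates have absolute value at most `T` -/
def integers (m T : ℕ) : Set ℂ :=
  {α | IsIntegral ℤ α ∧ (minpoly ℚ α).natDegree ≤ m ∧ ∀ z : ℂ, Polynomial.aeval z (minpoly ℚ α) = 0 → ‖z‖ ≤ T}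

/-! ### De Rham-Betti tensors -/

section
variable {I J : Type}

/-- `g ⊗ g ⊗ ⋯ ⊗ g` applied to the tensor `a`; tensors of degree `q` are given by their coordinates -/
noncomputable def act [Fintype I] {q : ℕ} (g : Matrix I I ℂ) (a : (Fin q → I) → ℂ) : (Fin q → I) → ℂ :=
  fun p => ∑ y : Fin q → I, (∏ l, g (p l) (y l)) * a y

/-- The rational tensor `u` is a de Rham-Betti tensor over `K` with the multiplier `l`, for the period matrix `Z` (rows: Betti,
columns: de Rham): `u = l Z^{⊗ q} a`, where `a` is a tensor over `K`. For the classes `u ∈ H^{2j}(X, ℚ)` in the conjecture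
`l = (2πi)^(-j)`. -/
def IsDRB [Fintype I] (K : Subfield ℂ) (Z : Matrix I I ℂ) (l : ℂ) {q : ℕ} (u : (Fin q → I) → ℚ) : Prop :=
  ∃ a : (Fin q → I) → ℂ, (∀ p, a p ∈ K) ∧ ∀ p, ((u p : ℚ) : ℂ) = l * act Z a p

/-- `v` as a tensor on the direct sum, extended by zero -/
def left {s : ℕ} (v : (Fin s → I) → ℚ) (p : Fin s → I ⊕ J) : ℚ :=
  if h : ∀ a, (p a).isLeft = true then v fun a => (p a).getLeft (h a) else 0

/-- `y` as a tensor on the direct sum, extended by zero -/
def right {s : ℕ} (y : (Fin s → J) → ℚ) (p : Fin s → I ⊕ J) : ℚ :=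
  if h : ∀ a, (p a).isRight = true then y fun a => (p a).getRight (h a) else 0

end

section
variable {k : ℕ} {n : Fin k → ℕ}

/-- the index set of `M = ⨁ M_i` -/
abbrev Index (n : Fin k → ℕ) : Type := Σ i : Fin k, Fin (n i)

/-- the class `C_i ∈ M_i ⊗ M_i` of the form `Q_i`, its inverse matrix, as a tensor on `M` -/
noncomputable def formClass (Q : ∀ i, Matrix (Fin (n i)) (Fin (n i)) ℤ) (i : Fin k) (p : Fin 2 → Index n) : ℚ :=
  (Matrix.blockDiagonal' fun j => if j = i then ((Q j).map fun x : ℤ => (x : ℚ))⁻¹ else 0) (p 0) (p 1)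

/-- the product `C_{ι(1)} × ⋯ × C_{ι(t)} × y`, a tensor on `M ⊕ W`; `e` gives the places of the factors -/
noncomputable def product {w t s q : ℕ} (Q : ∀ i, Matrix (Fin (n i)) (Fin (n i)) ℤ) (ι : Fin t → Fin k)
    (e : (Σ _ : Fin t, Fin 2) ⊕ Fin s ≃ Fin q) (y : (Fin s → Fin w) → ℚ) (p : Fin q → Index n ⊕ Fin w) : ℚ :=
  (∏ j, left (formClass Q (ι j)) fun a => p (e (Sum.inl ⟨j, a⟩))) * right y fun a => p (e (Sum.inr a))

/-- the period matrix of `M` at `z_i = 1 / α_i`, where `ℓ_i` is a logarithm of `α_i` -/
noncomputable def periods (β : ∀ i, Fin (n i) → ℚ) (Ω : ∀ i, Matrix (Fin (n i)) (Fin (n i)) ℂ) (α ℓ : Fin k → ℂ) :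
    Matrix (Index n) (Index n) ℂ :=
  Matrix.blockDiagonal' fun i => Ω i * (solutions (β i) (1 / α i) (-ℓ i)).transpose

/-- The conclusion for one tuple `α`: all `|α_i| > 1` (where the series converge), and for all logarithms `ℓ_i` of the `α_i`
and all number fields `K` of degree at most `D` which contain the `α_i`: the classes `C_i` are de Rham-Betti tensors with the
multiplier `1 / γ_i`, and all de Rham-Betti tensors over `K` on `M ⊕ W`, of any degree `q` and any multiplier `l`, are rational
combinations of products of classes `C_i` and a de Rham-Betti tensor over `K` on `W` with the multiplier `l ∏ γ_i`. -/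
def Generic {w : ℕ} (D : ℕ) (β : ∀ i, Fin (n i) → ℚ) (Ω : ∀ i, Matrix (Fin (n i)) (Fin (n i)) ℂ)
    (Q : ∀ i, Matrix (Fin (n i)) (Fin (n i)) ℤ) (γ : Fin k → ℂ) (C₀ : Matrix (Fin w) (Fin w) ℂ) (α : Fin k → ℂ) : Prop :=
  (∀ i, 1 < ‖α i‖) ∧ ∀ ℓ : Fin k → ℂ, (∀ i, Complex.exp (ℓ i) = α i) →
  ∀ K : Subfield ℂ, FiniteDimensional ℚ K → Module.finrank ℚ K ≤ D → (∀ i, α i ∈ K) →
    (∀ i, IsDRB K (periods β Ω α ℓ) (γ i)⁻¹ (formClass Q i)) ∧
    ∀ (q : ℕ) (u : (Fin q → Index n ⊕ Fin w) → ℚ) (l : ℂ), IsDRB K (Matrix.fromBlocks (periods β Ω α ℓ) 0 0 C₀) l u →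
      u ∈ Submodule.span ℚ {x | ∃ (t s : ℕ) (ι : Fin t → Fin k) (e : (Σ _ : Fin t, Fin 2) ⊕ Fin s ≃ Fin q)
        (y : (Fin s → Fin w) → ℚ), IsDRB K C₀ (l * ∏ j, γ (ι j)) y ∧ x = product Q ι e y}

end

theorem frob_eq {m : ℕ} (β : Fin m → ℚ) (j : ℕ) : frob β j = Pool.Agent.Y119.HY.aq m (Q207.HM.QA β) j := by
  unfold frob Pool.Agent.Y119.HY.aq
  refine Finset.prod_congr rfl fun l _ => ?_
  have h1 : (∏ i, (shift l + PowerSeries.C (β i))) = Polynomial.aeval (Pool.Agent.Y119.HY.kx l) (Q207.HM.QA β) := by
    unfold Q207.HM.QA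
    rw [map_prod]
    refine Finset.prod_congr rfl fun j _ => ?_
    rw [map_add, Polynomial.aeval_X, Polynomial.aeval_C]
    rfl
  rw [h1]
  rfl

theorem solutions_eq {m : ℕ} (β : Fin m → ℚ) (z L : ℂ) : solutions β z L = Q207.HN.YL β z L := by
  ext b a
  rw [Q207.HN.YL_apply]
  unfold solutions
  rw [Matrix.of_apply]
  refine Finset.sum_congr rfl fun l _ => ?_
  congr 1
  refine tsum_congr fun j => ?_
  rw [frob_eq]
  rfl

theorem act_eq {I : Type} [Fintype I] {q : ℕ} (g : Matrix I I ℂ) (a : (Fin q → I) → ℂ) :
    act g a = Q207.DB.actM (fun _ => g) a := by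
  funext p
  rw [Q207.DB.actM_apply]
  rfl

theorem drb_iff {I : Type} [Fintype I] {K : Subfield ℂ} {Z : Matrix I I ℂ} {l : ℂ} {q : ℕ} {u : (Fin q → I) → ℚ} :
    IsDRB K Z l u ↔ ∃ a : (Fin q → I) → ℂ, (∀ p, a p ∈ K) ∧ Q207.HT.qc u = l • Q207.DB.actM (fun _ => Z) a := by
  refine exists_congr fun a => and_congr_right fun _ => ?_
  rw [← act_eq]
  exact ⟨fun h => funext h, fun h p => congrFun h p⟩

/-- **The theorem** of the introduction. -/
theorem result (k m w D : ℕ) (hm : 1 ≤ m) (n : Fin k → ℕ) (β : ∀ i, Fin (n i) → ℚ) (hβ : ∀ i, Symplectic (β i)) :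
    ∃ c C : ℝ, 0 < c ∧ ∀ (Ω : ∀ i, Matrix (Fin (n i)) (Fin (n i)) ℂ) (Q : ∀ i, Matrix (Fin (n i)) (Fin (n i)) ℤ)
      (γ : Fin k → ℂ), (∀ i, IsBaseChange (Ω i) (Q i) (γ i)) → ∃ B : Set ℂ, B.Finite ∧
      ∀ C₀ : Matrix (Fin w) (Fin w) ℂ, IsUnit C₀.det → ∀ T : ℕ, 1 ≤ T →
      ({α : Fin k → ℂ | (∀ i, α i ∈ integers m T ∧ α i ∉ B) ∧ ¬ Generic D β Ω Q γ C₀ α}.ncard : ℝ) ≤
        C * (T : ℝ) ^ (-c) * ((integers m T).ncard : ℝ) ^ k := by
  classical
  obtain ⟨c, C, hc0, hmain⟩ := Q207.HN.drb_alg k m w D hm n (β := β) fun i =>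
    ⟨(hβ i).two, (hβ i).even, (hβ i).pos, (hβ i).dual⟩
  refine ⟨c, C, hc0, fun Ω Q γ hQ => ?_⟩
  obtain ⟨B, hBf, hB⟩ := hmain Ω Q γ (fun i => (hQ i).1) (fun i => (hQ i).2.1) fun i => (hQ i).2.2
  refine ⟨B, hBf, fun C₀ hC₀ T hT => ?_⟩
  refine le_trans ?_ (hB C₀ hC₀ T hT)
  refine Nat.cast_le.2 (Set.ncard_le_ncard ?_ ?_)
  · rintro α ⟨h1, h2⟩
    refine ⟨h1, fun h3 => h2 ⟨h3.1, fun ℓ hℓ K hKf hKD hαK => ?_⟩⟩
    obtain ⟨h4, h5⟩ := h3.2 ℓ hℓ K hKf hKD hαK
    have hper : periods β Ω α ℓ = Matrix.blockDiagonal' fun i => Ω i * (Q207.HN.YL (β i) (1 / α i) (-ℓ i)).transpose := by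
      unfold periods
      congr 1
      funext i
      rw [solutions_eq]
    refine ⟨fun i => ?_, fun q u l hu => ?_⟩
    · rw [drb_iff, hper]
      exact h4 i
    · rw [drb_iff, hper] at hu
      obtain ⟨a, haK, hu⟩ := hu
      have h6 := h5 q u l a haK hu
      refine Submodule.span_mono ?_ h6
      rintro _ ⟨t, s, ι, e, y, hy, rfl⟩
      exact ⟨t, s, ι, e, y, drb_iff.2 hy, rfl⟩
  · refine (Set.Finite.pi (fun _ : Fin k => Pool.Agent.Y916.Sl.sint_fin m T)).subset ?_
    intro α hα i _
    exact (hα.1 i).1

end Pool.Agent.Results.MP_bf54cf_ag.ClassesOverNumberFields
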