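import Pool.Agent.Q50.DR.Defs3
import Pool.Agent.Q50.DR.Eqv

open CategoryTheory AlgebraicGeometry

universe u w

namespace Pool.Agent.Results.MP_bf54cf_ag.FourthPowerComparesClasses

open Pool.Agent.H914
open Pool.Agent.Y121.AHS (Comparison)
open Pool.Agent.Q50.MTC (HodgeDecomposition)
open Pool.Agent.Q50.DR

variable {k : Type u} [Field k] {𝒱 : VarClass k} {ops : CycleOps 𝒱}
  {W D : WeilCohomology.{u, 0} ops} [Algebra W.K ℂ] [Algebra D.K ℂ]

/-- **The classes of codimension `2 dim X` on `X ^ 4` decide**, in both directions: if the Hodge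
classes there (killed by the centre) are de Rham-Betti classes, then this holds in all codimensions
on all powers of `X`; and if `H(X)` is a semisimple de Rham-Betti structure and the de Rham-Betti
classes there (killed by the centre) are Hodge classes, then this holds in all codimensions on all
powers of `X`. -/
theorem result (T : HodgeDecomposition W) (C : Comparison W D ℂ) (hC : C.s = RingEquiv.refl ℂ)
    [IsAlgClosed D.K] (X : 𝒱.Obj) :
    (HodgeToDRB T C X 3 (2 * X.dim) → ∀ n j, HodgeToDRB T C X n j) ∧
    (IsSemi (W.gr X) (C.e X) → DRBToHodge T C X 3 (2 * X.dim) → ∀ n j, DRBToHodge T C X n j) :=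
  main3 T C hC X

end Pool.Agent.Results.MP_bf54cf_ag.FourthPowerComparesClasses
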