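import Pool.Agent.Q28.ZO.Per

/-!
# Zero-one laws for de Rham-Betti classes and Hodge classes on the powers of a variety

Let `X` be a smooth projective variety over the field of algebraic numbers. A class on a power of
`X` is an HD class if it is both a Hodge class and a de Rham-Betti class; classes of algebraic
cycles are HD classes. The conjectures `GPC^k(X^n)` would imply that all de Rham-Betti classes are
Hodge classes, and the Hodge conjecture that all Hodge classes are de Rham-Betti classes. We prove
unconditionally:

* either all de Rham-Betti classes on all powers of `X` are Hodge classes, or the HD classes, and
  therefore also the algebraic classes, are asymptotically zero percent of the de Rham-Betti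
  classes on `X^n`;
* either all Hodge classes on all powers of `X` are de Rham-Betti classes, or the HD classes, and
  therefore also the algebraic classes, are asymptotically zero percent of the Hodge classes
  on `X^n`.

In particular, if the rank of the group of the algebraic cycles on `X^n` modulo numerical
equivalence, divided by the dimension of the space of the de Rham-Betti classes, does not tend to
zero, then all de Rham-Betti classes on all powers of `X` are Hodge classes; and if also the
analogous quotient for the Hodge classes does not tend to zero, then the de Rham-Betti classes on
the powers of `X` are exactly the Hodge classes, and the period conjecture for cycles on all powers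
of `X` is equivalent to the Hodge conjecture for all powers of `X`.

So the indices `N` and `N'` of the de Rham-Betti classes and of the Hodge classes over the HD
classes (see `HodgeSplitting`) are `1` or `∞`; no other values are possible. The reason is that
the groups attached to Hodge structures and to de Rham-Betti structures over the field of algebraic
numbers are connected. In the proof this is replaced by the following. If the quotient does not tend
to zero then all classes in question are generated by those on one power under HD correspondences,
which respect the Hodge decomposition and the algebraic de Rham cohomology. Therefore the numbers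
`p - q` for their components of type `(p, q)` are bounded, and their periods lie in a
finite-dimensional space over the field of algebraic numbers. Apply this to the external powers of
one class.

The theorem is proved for an arbitrary class of smooth projective varieties which is stable under
products, a Hodge theory `T` on it, and a de Rham structure `D` on `T` over an algebraically closed
subfield `F` of `ℂ` (which is needed for the second law only).
-/

open CategoryTheory AlgebraicGeometry

universe u

namespace Pool.Agent.Results.MP_bf54cf_ag.ZeroOneLaw

open Pool.Agent.H914
open Pool.Agent.Y121.AHS (HodgeTheory IsHodge RatioToZero)
open Pool.Agent.Y133.Half (pw)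
open Pool.Agent.Q57.DS

variable {k : Type u} [Field k] {𝒱 : VarClass k} {ops : CycleOps 𝒱}

/-- **Zero-one laws for de Rham-Betti classes and Hodge classes.** `pw X n` is the product of
`n + 1` copies of `X`. -/
theorem result (T : HodgeTheory ops) {F : Subfield ℂ} (hF : ∀ x : ℂ, IsAlgebraic F x → x ∈ F)
    (D : DRStr T F) (X : 𝒱.Obj) [Nontrivial (T.W.H X)] :
    -- the law for de Rham-Betti classes
    ((∀ n, DRBAreHodge D (pw X n)) ∨
      RatioToZero (fun n => dimP (IsHD D) (pw X n)) fun n => dimP (IsDRB D) (pw X n)) ∧
    -- the law for Hodge classes
    ((∀ n, HodgeAreDRB D (pw X n)) ∨
      RatioToZero (fun n => dimP (IsHD D) (pw X n)) fun n => dimP (IsHodge T) (pw X n)) ∧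
    -- the consequences for algebraic cycles
    ((∀ n, DRBAreHodge D (pw X n)) ∨
      RatioToZero (fun n => cycRk ops (pw X n)) fun n => dimP (IsDRB D) (pw X n)) ∧
    ((∀ n, HodgeAreDRB D (pw X n)) ∨
      RatioToZero (fun n => cycRk ops (pw X n)) fun n => dimP (IsHodge T) (pw X n)) := by
  have h1 := Pool.Agent.Q28.ZO.p_drb_or T D X
  have h2 := Pool.Agent.Q28.ZO.p_hodge_or T D X hF
  exact ⟨h1, h2, h1.imp_right (Pool.Agent.Q28.ZO.p_of_le T D X),
    h2.imp_right (Pool.Agent.Q28.ZO.p_of_le T D X)⟩

end Pool.Agent.Results.MP_bf54cf_ag.ZeroOneLaw
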